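import Pool.Agent.N789.MO.Stm
import Pool.Agent.Y681.E.Apx2

/-! # MOU/DEC: `λ h` is nearly periodic up to rotations -/

set_option autoImplicit false

namespace Pool.Agent.N247.MO

open Finset Pool.Agent.N789.MO
open Pool.Agent.H376R2.MR (lam)
open Pool.Agent.Y958.E (BM AP)

/-- the larger absolute values at prime powers -/
noncomputable def mm (h : ℕ → ℂ) (n : ℕ) : ℝ := n.factorization.prod (fun p a => max 1 ‖h (p ^ a)‖)

section

variable {h : ℕ → ℂ}

theorem mm_mul {m n : ℕ} (hc : Nat.Coprime m n) : mm h (m * n) = mm h m * mm h n := by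
  unfold mm
  rw [Nat.factorization_mul_of_coprime hc]
  exact Finsupp.prod_add_index_of_disjoint (by
    simpa only [Nat.support_factorization] using hc.disjoint_primeFactors) _

theorem mm_zero : mm h 0 = 1 := by simp [mm]

theorem mm_one : mm h 1 = 1 := by simp [mm]

theorem mm_pow (h1 : h 1 = 1) {p k : ℕ} (hp : p.Prime) : mm h (p ^ k) = max 1 ‖h (p ^ k)‖ := by
  unfold mm
  rw [hp.factorization_pow]
  rw [Finsupp.prod_single_index]
  simp [h1]

theorem mm_prime (h1 : h 1 = 1) {p : ℕ} (hp : p.Prime) : mm h p = max 1 ‖h p‖ := by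
  have := mm_pow (k := 1) h1 hp
  simpa using this

theorem one_le_mm (n : ℕ) : 1 ≤ mm h n := by
  unfold mm Finsupp.prod
  refine Finset.prod_induction _ (fun x : ℝ => 1 ≤ x)
    (fun a b ha hb => one_le_mul_of_one_le_of_one_le ha hb) le_rfl fun p _ => le_max_left _ _

theorem mm_pos (n : ℕ) : 0 < mm h n := lt_of_lt_of_le one_pos (one_le_mm n)

theorem exists_dvd {B : ℝ} (H : Near h B) (n : ℕ) : ∃ m, 1 ≤ m ∧ m ∣ n ∧ ‖h m‖ = mm h n := by
  induction n using Nat.recOnPosPrimePosCoprime with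
  | prime_pow p k hp hk =>
    rw [mm_pow H.one hp]
    rcases le_total 1 ‖h (p ^ k)‖ with h1 | h1
    · exact ⟨p ^ k, Nat.one_le_pow _ _ hp.pos, dvd_rfl, by rw [max_eq_right h1]⟩
    · exact ⟨1, le_rfl, one_dvd _, by rw [max_eq_left h1, H.one, norm_one]⟩
  | zero => exact ⟨1, le_rfl, dvd_zero _, by rw [mm_zero, H.one, norm_one]⟩
  | one => exact ⟨1, le_rfl, dvd_rfl, by rw [mm_one, H.one, norm_one]⟩
  | coprime a b ha hb hc iha ihb =>
    obtain ⟨x, hx, hxa, ex⟩ := iha
    obtain ⟨y, hy, hyb, ey⟩ := ihb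
    refine ⟨x * y, Nat.mul_pos hx hy, Nat.mul_dvd_mul hxa hyb, ?_⟩
    rw [H.mul x y hx hy (Nat.Coprime.of_dvd hxa hyb hc), norm_mul, ex, ey, mm_mul hc]

theorem mm_le {B : ℝ} (H : Near h B) (n : ℕ) : mm h n ≤ B := by
  obtain ⟨m, -, -, e⟩ := exists_dvd H n
  rw [← e]
  exact H.bd m

theorem norm_le_mm {B : ℝ} (H : Near h B) (n : ℕ) : ‖h n‖ ≤ mm h n := by
  induction n using Nat.recOnPosPrimePosCoprime with
  | prime_pow p k hp hk =>
    rw [mm_pow H.one hp]
    exact le_max_right _ _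
  | zero => rw [mm_zero, H.zero, norm_zero]; exact zero_le_one
  | one => rw [mm_one, H.one, norm_one]
  | coprime a b ha hb hc iha ihb =>
    rw [H.mul a b (by omega) (by omega) hc, norm_mul, mm_mul hc]
    exact mul_le_mul iha ihb (norm_nonneg _) (mm_pos _).le

theorem lam_mul {m n : ℕ} (hm : 1 ≤ m) (hn : 1 ≤ n) : lam (m * n) = lam m * lam n := by
  unfold lam
  rw [ArithmeticFunction.cardFactors_mul (by omega) (by omega), pow_add]

theorem lam_prime {p : ℕ} (hp : p.Prime) : lam p = -1 := by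
  unfold lam
  rw [ArithmeticFunction.cardFactors_apply_prime hp, pow_one]

theorem norm_lam (n : ℕ) : ‖(lam n : ℂ)‖ = 1 := by
  unfold lam
  push_cast
  rw [norm_pow, norm_neg, norm_one, one_pow]

/-- the normalised function -/
noncomputable def gg (h : ℕ → ℂ) (n : ℕ) : ℂ := (lam n : ℂ) * h n / (mm h n : ℂ)

/-- the weights -/
noncomputable def mi (h : ℕ → ℂ) (n : ℕ) : ℂ := ((1 / mm h n : ℝ) : ℂ)

theorem norm_mm (n : ℕ) : ‖(mm h n : ℂ)‖ = mm h n := by
  rw [Complex.norm_real, Real.norm_of_nonneg (mm_pos n).le]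

theorem bm_gg {B : ℝ} (H : Near h B) : BM (gg h) := by
  refine ⟨fun n => ?_, fun m n hm hn hc => ?_⟩
  · unfold gg
    rw [norm_div, norm_mul, norm_lam, one_mul, norm_mm]
    exact (div_le_one (mm_pos n)).2 (norm_le_mm H n)
  · unfold gg
    rw [lam_mul hm hn, H.mul m n hm hn hc, mm_mul hc]
    push_cast
    rw [mul_mul_mul_comm, mul_div_mul_comm]

theorem norm_mi_eq (n : ℕ) : ‖mi h n‖ = 1 / mm h n := by
  unfold mi
  rw [Complex.norm_real, Real.norm_of_nonneg (one_div_pos.2 (mm_pos n)).le]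

theorem bm_mi : BM (mi h) := by
  refine ⟨fun n => ?_, fun m n hm hn hc => ?_⟩
  · rw [norm_mi_eq]
    exact (div_le_one (mm_pos n)).2 (one_le_mm n)
  · unfold mi
    rw [mm_mul hc, ← Complex.ofReal_mul, one_div_mul_one_div]

theorem chi_one (p : ℕ) : (1 : DirichletCharacter ℂ 1) ((p : ℕ) : ZMod 1) = 1 :=
  MulChar.one_apply (isUnit_of_subsingleton _)

theorem max_sub (x : ℝ) : max 1 x - 1 = max (x - 1) 0 := by
  rw [max_comm (x - 1) 0]
  rcases le_total 1 x with h | h
  · rw [max_eq_right h, max_eq_right (by linarith)]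
  · rw [max_eq_left h, max_eq_left (by linarith)]; ring

theorem sum_mi {B : ℝ} (H : Near h B) :
    Summable (fun p : Nat.Primes => ‖mi h p - (1 : DirichletCharacter ℂ 1) ((p : ℕ) : ZMod 1)‖ /
      ((p : ℕ) : ℝ)) := by
  refine Summable.of_nonneg_of_le (fun p => by positivity) (fun p => ?_) H.ex
  rw [chi_one]
  refine div_le_div_of_nonneg_right ?_ (Nat.cast_nonneg _)
  have e : mi h p - 1 = ((1 / mm h p - 1 : ℝ) : ℂ) := by unfold mi; push_cast; ring
  have h1 := one_le_mm (h := h) (p : ℕ)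
  have h0 := mm_pos (h := h) (p : ℕ)
  rw [e, Complex.norm_real, ← max_sub, ← mm_prime H.one p.2, Real.norm_eq_abs, abs_sub_comm,
    abs_of_nonneg (by rw [sub_nonneg, div_le_one h0]; exact h1)]
  have h2 : 1 - 1 / mm h p = (mm h p - 1) / mm h p := by field_simp
  rw [h2]
  exact div_le_self (by linarith) h1

theorem sum_gg {B : ℝ} (H : Near h B) :
    Summable (fun p : Nat.Primes => (1 - (gg h p *
      (starRingEnd ℂ) ((1 : DirichletCharacter ℂ 1) ((p : ℕ) : ZMod 1))).re) / ((p : ℕ) : ℝ)) := by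
  refine Summable.of_nonneg_of_le (fun p => ?_) (fun p => ?_) (H.re.add H.ex)
  · rw [chi_one, map_one, mul_one]
    refine div_nonneg ?_ (Nat.cast_nonneg _)
    have h1 := (bm_gg H).1 p
    have h2 := Complex.re_le_norm (gg h p)
    linarith
  · rw [chi_one, map_one, mul_one, ← add_div]
    refine div_le_div_of_nonneg_right ?_ (Nat.cast_nonneg _)
    rw [← max_sub, ← mm_prime H.one p.2]
    have h1 := one_le_mm (h := h) (p : ℕ)
    have h0 := mm_pos (h := h) (p : ℕ)
    have e : (gg h p).re = - (h p).re / mm h p := by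
      unfold gg
      rw [lam_prime p.2, Complex.div_ofReal_re]
      simp
    rw [e]
    have h3 : 1 - -(h p).re / mm h p = (1 + (h p).re) + -(h p).re * ((mm h p - 1) / mm h p) := by
      field_simp
      ring
    rw [h3]
    have h4 : -(h p).re ≤ mm h p :=
      ((neg_le_abs _).trans (Complex.abs_re_le_norm _)).trans (norm_le_mm H p)
    have h5 : -(h p).re * ((mm h p - 1) / mm h p) ≤ mm h p * ((mm h p - 1) / mm h p) :=
      mul_le_mul_of_nonneg_right h4 (div_nonneg (by linarith) h0.le)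
    have h6 : mm h p * ((mm h p - 1) / mm h p) = mm h p - 1 := by field_simp
    have h7 := le_abs_self (1 + (h p).re)
    linarith

/-- the inverse of the weight -/
noncomputable def phi (B : ℝ) (z : ℂ) : ℝ := 1 / max z.re (1 / B)

theorem phi_pos {B : ℝ} (hB : 0 < B) (z : ℂ) : 0 < phi B z := by
  unfold phi
  have : 0 < max z.re (1 / B) := lt_of_lt_of_le (one_div_pos.2 hB) (le_max_right _ _)
  positivity

theorem phi_le {B : ℝ} (hB : 0 < B) (z : ℂ) : phi B z ≤ B := by
  unfold phi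
  have h1 : 0 < 1 / B := one_div_pos.2 hB
  calc 1 / max z.re (1 / B) ≤ 1 / (1 / B) := one_div_le_one_div_of_le h1 (le_max_right _ _)
    _ = B := one_div_one_div B

theorem mm_phi {B : ℝ} (H : Near h B) (hB : 0 < B) (n : ℕ) (z : ℂ) :
    |mm h n - phi B z| ≤ B ^ 2 * ‖mi h n - z‖ := by
  have h0 := mm_pos (h := h) n
  have h1 := mm_le H n
  have hp := phi_pos hB z
  have hp' := phi_le hB z
  have e : mm h n - phi B z = mm h n * phi B z * (max z.re (1 / B) - 1 / mm h n) := by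
    unfold phi
    have : 0 < max z.re (1 / B) := lt_of_lt_of_le (one_div_pos.2 hB) (le_max_right _ _)
    field_simp
  have h2 : |max z.re (1 / B) - 1 / mm h n| ≤ ‖mi h n - z‖ := by
    have h3 : 1 / mm h n = max (1 / mm h n) (1 / B) :=
      (max_eq_left (one_div_le_one_div_of_le h0 h1)).symm
    rw [h3]
    refine (abs_max_sub_max_le_abs _ _ _).trans ?_
    rw [abs_sub_comm]
    have h4 := Complex.abs_re_le_norm (mi h n - z)
    have h5 : (mi h n - z).re = 1 / mm h n - z.re := by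
      unfold mi
      rw [Complex.sub_re, Complex.ofReal_re]
    rwa [h5] at h4
  rw [e, abs_mul, abs_of_pos (mul_pos h0 hp)]
  refine mul_le_mul ?_ h2 (abs_nonneg _) (by positivity)
  rw [pow_two]
  exact mul_le_mul h1 hp' hp.le hB.le

end

theorem dec : S_DEC := by
  intro h B H ε hε
  have hB1 : 1 ≤ B := by
    have := H.bd 1
    rwa [H.one, norm_one] at this
  have hB : 0 < B := by linarith
  obtain ⟨Q₁, w₁, hQ₁, hw₁, hp₁, N₁, hN₁⟩ :=
    Pool.Agent.Y681.E.Apx2.apx2 1 le_rfl 1 (gg h) (bm_gg H) (sum_gg H) (ε / (2 * B)) (by positivity)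
  obtain ⟨Q₂, w₂, hQ₂, hw₂, hp₂, N₂, hN₂⟩ :=
    Pool.Agent.Y434.E.Apx.apx 1 le_rfl 1 (mi h) bm_mi (sum_mi H) (ε / (2 * B ^ 2)) (by positivity)
  refine ⟨Q₁ * Q₂, fun n => w₁ n * (phi B (w₂ n) : ℂ), Nat.mul_pos hQ₁ hQ₂, fun n => ?_,
    fun n => ?_, max N₁ N₂, fun N hN => ?_⟩
  · rw [norm_mul, Complex.norm_real, Real.norm_of_nonneg (phi_pos hB _).le]
    calc ‖w₁ n‖ * phi B (w₂ n) ≤ 1 * B :=
          mul_le_mul (hw₁ n) (phi_le hB _) (phi_pos hB _).le zero_le_one
      _ = B := one_mul B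
  · have e1 : w₁ (n + Q₁ * Q₂) = w₁ n := by
      have := Function.Periodic.nat_mul (f := w₁) (c := Q₁) hp₁ Q₂ n
      rwa [Nat.cast_id, mul_comm Q₂ Q₁] at this
    have e2 : w₂ (n + Q₁ * Q₂) = w₂ n := by
      have := Function.Periodic.nat_mul (f := w₂) (c := Q₂) hp₂ Q₁ n
      rwa [Nat.cast_id] at this
    show w₁ (n + Q₁ * Q₂) * (phi B (w₂ (n + Q₁ * Q₂)) : ℂ) = _
    rw [e1, e2]
  · obtain ⟨u, hu, hs⟩ := hN₁ N (le_trans (le_max_left _ _) hN)
    have hs2 := hN₂ N (le_trans (le_max_right _ _) hN)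
    refine ⟨u, hu, ?_⟩
    have key : ∀ n, ‖(lam n : ℂ) * h n - u * (w₁ n * (phi B (w₂ n) : ℂ))‖ ≤
        B * ‖gg h n - u * w₁ n‖ + B ^ 2 * ‖mi h n - w₂ n‖ := by
      intro n
      have h0 : (mm h n : ℂ) ≠ 0 := by
        exact_mod_cast (mm_pos (h := h) n).ne'
      have e : (lam n : ℂ) * h n - u * (w₁ n * (phi B (w₂ n) : ℂ)) =
          (mm h n : ℂ) * (gg h n - u * w₁ n) + u * w₁ n * ((mm h n - phi B (w₂ n) : ℝ) : ℂ) := by
        unfold gg
        push_cast
        field_simp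
        ring
      rw [e]
      refine (norm_add_le _ _).trans (add_le_add ?_ ?_)
      · rw [norm_mul, norm_mm]
        exact mul_le_mul_of_nonneg_right (mm_le H n) (norm_nonneg _)
      · rw [norm_mul, norm_mul, hu, one_mul, Complex.norm_real, Real.norm_eq_abs]
        calc ‖w₁ n‖ * |mm h n - phi B (w₂ n)| ≤ 1 * (B ^ 2 * ‖mi h n - w₂ n‖) :=
              mul_le_mul (hw₁ n) (mm_phi H hB n _) (abs_nonneg _) zero_le_one
          _ = _ := one_mul _
    calc ∑ n ∈ range N, ‖(lam n : ℂ) * h n - u * (w₁ n * (phi B (w₂ n) : ℂ))‖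
        ≤ ∑ n ∈ range N, (B * ‖gg h n - u * w₁ n‖ + B ^ 2 * ‖mi h n - w₂ n‖) :=
          Finset.sum_le_sum fun n _ => key n
      _ = B * ∑ n ∈ range N, ‖gg h n - u * w₁ n‖ + B ^ 2 * ∑ n ∈ range N, ‖mi h n - w₂ n‖ := by
          rw [Finset.sum_add_distrib, ← Finset.mul_sum, ← Finset.mul_sum]
      _ ≤ B * (ε / (2 * B) * N) + B ^ 2 * (ε / (2 * B ^ 2) * N) :=
          add_le_add (mul_le_mul_of_nonneg_left hs hB.le)
            (mul_le_mul_of_nonneg_left hs2 (by positivity))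
      _ = ε * N := by
          field_simp
          ring

end Pool.Agent.N247.MO
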